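import Pool.Agent.Y892.DP.Stm

/-!
# DP-W, DP-GEN: alternating chain numbers, orbit counting over chains
-/

set_option autoImplicit false

open scoped Classical BigOperators

noncomputable section

namespace Pool.Agent.Y495.DP

open Pool.Agent.Y63.KR Pool.Agent.Y892.DP

/-! ### Order isomorphisms -/

theorem w1 : S_W1 := by
  intro G H _ _ _ _ X Y f hf hXY
  have hinj : Set.InjOn f X := fun P hP Q hQ h =>
    le_antisymm ((hf P hP Q hQ).1 h.le) ((hf Q hQ P hP).1 h.ge)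
  have hmem : ∀ σ : Ch X, f '' σ.1 ⊆ Y ∧ IsChain (· ≤ ·) (f '' σ.1) := by
    rintro ⟨σ, h1, h2⟩
    refine ⟨?_, ?_⟩
    · rw [← hXY]
      exact Set.image_mono h1
    · rintro _ ⟨P, hP, rfl⟩ _ ⟨Q, hQ, rfl⟩ _
      rcases h2.total hP hQ with h3 | h3
      · exact Or.inl ((hf P (h1 hP) Q (h1 hQ)).2 h3)
      · exact Or.inr ((hf Q (h1 hQ) P (h1 hP)).2 h3)
  unfold w
  refine finsum_eq_of_bijective (fun σ : Ch X => (⟨f '' σ.1, hmem σ⟩ : Ch Y)) ⟨?_, ?_⟩ ?_
  · intro σ τ h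
    have h1 : f '' σ.1 = f '' τ.1 := congrArg Subtype.val h
    exact Subtype.ext ((hinj.image_eq_image_iff σ.2.1 τ.2.1).1 h1)
  · rintro ⟨τ, h1, h2⟩
    refine ⟨⟨{P | P ∈ X ∧ f P ∈ τ}, fun P hP => hP.1, ?_⟩, ?_⟩
    · intro P hP Q hQ _
      rcases h2.total hP.2 hQ.2 with h3 | h3
      · exact Or.inl ((hf P hP.1 Q hQ.1).1 h3)
      · exact Or.inr ((hf Q hQ.1 P hP.1).1 h3)
    · apply Subtype.ext
      show f '' {P | P ∈ X ∧ f P ∈ τ} = τ
      ext Q
      constructor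
      · rintro ⟨P, hP, rfl⟩
        exact hP.2
      · intro hQ
        have h3 := h1 hQ
        rw [← hXY] at h3
        obtain ⟨P, hP, rfl⟩ := h3
        exact ⟨P, ⟨hP, hQ⟩, rfl⟩
  · intro σ
    show (-1 : ℤ) ^ σ.1.ncard = (-1) ^ (f '' σ.1).ncard
    rw [Set.ncard_image_of_injOn (hinj.mono σ.2.1)]

/-! ### Cones -/

theorem w2 : S_W2 := by
  intro G _ _ X U hU hPU
  have hT : ∀ σ : Ch X, toggled U σ.1 ∈ X := by
    intro σ
    rcases lower_cases σ.2.2 U with h | h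
    · unfold toggled
      rw [h, bot_sup_eq]
      exact hU
    · exact hPU _ (σ.2.1 h.1)
  have hmem : ∀ σ : Ch X, toggle U σ.1 ⊆ X ∧ IsChain (· ≤ ·) (toggle U σ.1) := by
    intro σ
    by_cases h : toggled U σ.1 ∈ σ.1
    · have h1 : toggle U σ.1 = σ.1 \ {toggled U σ.1} := if_pos h
      rw [h1]
      exact ⟨Set.diff_subset.trans σ.2.1, σ.2.2.mono Set.diff_subset⟩
    · have h1 : toggle U σ.1 = insert (toggled U σ.1) σ.1 := if_neg h
      rw [h1]
      refine ⟨Set.insert_subset (hT σ) σ.2.1, σ.2.2.insert fun P hP _ => ?_⟩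
      rcases comparable (U := U) σ.2.2 hP with h2 | h2
      · exact Or.inr h2
      · exact Or.inl h2
  have : Fintype (Ch X) := Fintype.ofFinite _
  unfold w
  rw [finsum_eq_sum_of_fintype]
  refine Finset.sum_involution (fun σ _ => (⟨toggle U σ.1, hmem σ⟩ : Ch X)) ?_ ?_ ?_ ?_
  · intro σ _
    show (-1 : ℤ) ^ σ.1.ncard + (-1) ^ (toggle U σ.1).ncard = 0
    rw [ncard_toggle]
    ring
  · intro σ _ _ h
    have h1 : toggle U σ.1 = σ.1 := congrArg Subtype.val h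
    have h2 := ncard_toggle U σ.1
    rw [h1] at h2
    have h3 : ((-1 : ℤ)) ^ σ.1.ncard ≠ 0 := pow_ne_zero _ (by norm_num)
    omega
  · intro σ _
    exact Finset.mem_univ _
  · intro σ _
    apply Subtype.ext
    exact toggle_toggle U σ.1

/-! ### Interior operators -/

section
variable {G : Type} [Group G]

/-- insert or remove `a` -/
def tog (a : Subgroup G) (σ : Set (Subgroup G)) : Set (Subgroup G) :=
  if a ∈ σ then σ \ {a} else insert a σ

lemma tog_tog (a : Subgroup G) (σ : Set (Subgroup G)) : tog a (tog a σ) = σ := by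
  by_cases h : a ∈ σ
  · have h1 : tog a σ = σ \ {a} := if_pos h
    rw [h1]
    unfold tog
    rw [if_neg (fun h2 => h2.2 rfl), Set.insert_diff_singleton, Set.insert_eq_of_mem h]
  · have h1 : tog a σ = insert a σ := if_neg h
    rw [h1]
    unfold tog
    rw [if_pos (Set.mem_insert _ _)]
    ext P
    simp only [Set.mem_diff, Set.mem_insert_iff, Set.mem_singleton_iff]
    constructor
    · rintro ⟨h2 | h2, h3⟩
      · exact absurd h2 h3
      · exact h2
    · intro h2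
      exact ⟨Or.inr h2, fun h3 => h (h3 ▸ h2)⟩

lemma mem_tog {a P : Subgroup G} {σ : Set (Subgroup G)} (h : P ≠ a) : P ∈ tog a σ ↔ P ∈ σ := by
  unfold tog
  split_ifs with h1
  · exact ⟨fun h2 => h2.1, fun h2 => ⟨h2, h⟩⟩
  · exact ⟨fun h2 => h2.resolve_left h, fun h2 => Or.inr h2⟩

lemma ncard_tog [Finite G] (a : Subgroup G) (σ : Set (Subgroup G)) :
    ((-1 : ℤ)) ^ (tog a σ).ncard = - (-1) ^ σ.ncard := by
  by_cases h : a ∈ σ
  · have h1 : tog a σ = σ \ {a} := if_pos h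
    have h2 := Set.ncard_diff_singleton_add_one h (Set.toFinite σ)
    rw [h1, ← h2, pow_succ]
    ring
  · have h1 : tog a σ = insert a σ := if_neg h
    rw [h1, Set.ncard_insert_of_notMem h (Set.toFinite σ), pow_succ]
    ring

/-- the smallest member outside `Y` -/
def mm (Y : Set (Subgroup G)) (σ : Set (Subgroup G)) : Subgroup G := sInf {P ∈ σ | P ∉ Y}

lemma mm_spec [Finite G] {Y σ : Set (Subgroup G)} (hσ : IsChain (· ≤ ·) σ) (h : ¬ σ ⊆ Y) :
    mm Y σ ∈ σ ∧ mm Y σ ∉ Y ∧ ∀ P ∈ σ, P ∉ Y → mm Y σ ≤ P := by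
  have hne : {P ∈ σ | P ∉ Y}.Nonempty := by
    rw [Set.not_subset] at h
    obtain ⟨P, h1, h2⟩ := h
    exact ⟨P, h1, h2⟩
  obtain ⟨M, hM⟩ := (Set.toFinite {P ∈ σ | P ∉ Y}).exists_minimal hne
  have hgr : IsLeast {P ∈ σ | P ∉ Y} M := by
    refine ⟨hM.1, fun P hP => ?_⟩
    rcases hσ.total hM.1.1 hP.1 with h1 | h1
    · exact h1
    · exact hM.2 hP h1
  have h1 : mm Y σ = M := hgr.isGLB.sInf_eq
  rw [h1]
  exact ⟨hM.1.1, hM.1.2, fun P hP hPY => hgr.2 ⟨hP, hPY⟩⟩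

end

theorem w3 : S_W3 := by
  intro G _ _ X Y r hYX hr hmono hid
  have hbad : ∀ (σ : Set (Subgroup G)) (a : Subgroup G), a ∈ Y →
      {P ∈ tog a σ | P ∉ Y} = {P ∈ σ | P ∉ Y} := by
    intro σ a ha
    ext P
    constructor
    · rintro ⟨h1, h2⟩
      exact ⟨(mem_tog (fun h : P = a => h2 (by rw [h]; exact ha))).1 h1, h2⟩
    · rintro ⟨h1, h2⟩
      exact ⟨(mem_tog (fun h : P = a => h2 (by rw [h]; exact ha))).2 h1, h2⟩
  have hsub : ∀ (σ : Set (Subgroup G)) (a : Subgroup G), a ∈ Y → (tog a σ ⊆ Y ↔ σ ⊆ Y) := by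
    intro σ a ha
    have h1 : ∀ τ : Set (Subgroup G), τ ⊆ Y ↔ {P ∈ τ | P ∉ Y} = ∅ := by
      intro τ
      rw [Set.eq_empty_iff_forall_notMem]
      exact ⟨fun h P hP => hP.2 (h hP.1), fun h P hP => by_contra fun h2 => h P ⟨hP, h2⟩⟩
    rw [h1, h1, hbad σ a ha]
  have hmm : ∀ (σ : Set (Subgroup G)) (a : Subgroup G), a ∈ Y → mm Y (tog a σ) = mm Y σ := by
    intro σ a ha
    unfold mm
    rw [hbad σ a ha]
  have hrY : ∀ σ : Ch X, ¬ σ.1 ⊆ Y → r (mm Y σ.1) ∈ Y := fun σ h =>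
    (hr _ (σ.2.1 (mm_spec σ.2.2 h).1)).1
  have hmem : ∀ σ : Ch X, ¬ σ.1 ⊆ Y →
      tog (r (mm Y σ.1)) σ.1 ⊆ X ∧ IsChain (· ≤ ·) (tog (r (mm Y σ.1)) σ.1) := by
    intro σ hσ
    obtain ⟨h1, h2, h3⟩ := mm_spec σ.2.2 hσ
    by_cases h : r (mm Y σ.1) ∈ σ.1
    · have h4 : tog (r (mm Y σ.1)) σ.1 = σ.1 \ {r (mm Y σ.1)} := if_pos h
      rw [h4]
      exact ⟨Set.diff_subset.trans σ.2.1, σ.2.2.mono Set.diff_subset⟩
    · have h4 : tog (r (mm Y σ.1)) σ.1 = insert (r (mm Y σ.1)) σ.1 := if_neg h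
      rw [h4]
      refine ⟨Set.insert_subset (hYX (hrY σ hσ)) σ.2.1, σ.2.2.insert fun P hP _ => ?_⟩
      rcases σ.2.2.total h1 hP with h5 | h5
      · exact Or.inl ((hr _ (σ.2.1 h1)).2.trans h5)
      · by_cases hPY : P ∈ Y
        · right
          have h6 := hmono P (σ.2.1 hP) _ (σ.2.1 h1) h5
          rwa [hid P hPY] at h6
        · left
          exact (hr _ (σ.2.1 h1)).2.trans (h3 P hP hPY)
  have : Fintype (Ch X) := Fintype.ofFinite _
  have : Fintype (Ch Y) := Fintype.ofFinite _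
  unfold w
  rw [finsum_eq_sum_of_fintype, finsum_eq_sum_of_fintype,
    ← Finset.sum_filter_add_sum_filter_not Finset.univ (fun σ : Ch X => σ.1 ⊆ Y)]
  have h1 : ∑ σ ∈ Finset.univ.filter (fun σ : Ch X => σ.1 ⊆ Y), (-1 : ℤ) ^ σ.1.ncard =
      ∑ σ : Ch Y, (-1 : ℤ) ^ σ.1.ncard := by
    refine Finset.sum_bij' (fun σ hσ => (⟨σ.1, (Finset.mem_filter.1 hσ).2, σ.2.2⟩ : Ch Y))
      (fun σ _ => (⟨σ.1, σ.2.1.trans hYX, σ.2.2⟩ : Ch X)) ?_ ?_ ?_ ?_ ?_
    · intro σ _
      exact Finset.mem_univ _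
    · intro σ _
      exact Finset.mem_filter.2 ⟨Finset.mem_univ _, σ.2.1⟩
    · intro σ _
      rfl
    · intro σ _
      rfl
    · intro σ _
      rfl
  have h2 : ∑ σ ∈ Finset.univ.filter (fun σ : Ch X => ¬ σ.1 ⊆ Y), (-1 : ℤ) ^ σ.1.ncard = 0 := by
    refine Finset.sum_involution (fun σ hσ =>
      (⟨tog (r (mm Y σ.1)) σ.1, hmem σ (Finset.mem_filter.1 hσ).2⟩ : Ch X)) ?_ ?_ ?_ ?_
    · intro σ _
      show (-1 : ℤ) ^ σ.1.ncard + (-1) ^ (tog (r (mm Y σ.1)) σ.1).ncard = 0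
      rw [ncard_tog]
      ring
    · intro σ _ _ h
      have h1 : tog (r (mm Y σ.1)) σ.1 = σ.1 := congrArg Subtype.val h
      have h2 := ncard_tog (r (mm Y σ.1)) σ.1
      rw [h1] at h2
      have h3 : ((-1 : ℤ)) ^ σ.1.ncard ≠ 0 := pow_ne_zero _ (by norm_num)
      omega
    · intro σ hσ
      refine Finset.mem_filter.2 ⟨Finset.mem_univ _, ?_⟩
      have h3 := (Finset.mem_filter.1 hσ).2
      exact fun h4 => h3 ((hsub _ _ (hrY σ h3)).1 h4)
    · intro σ hσ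
      have h3 := (Finset.mem_filter.1 hσ).2
      apply Subtype.ext
      show tog (r (mm Y (tog (r (mm Y σ.1)) σ.1))) (tog (r (mm Y σ.1)) σ.1) = σ.1
      rw [hmm _ _ (hrY σ h3), tog_tog]
  rw [h1, h2, add_zero]

/-! ### Orbit counting -/

theorem gen : S_GEN := by
  intro G _ _ N X F T _ S c A hX hF hA
  have : Fintype (Ch X) := Fintype.ofFinite _
  have hconj : ∀ (n : N) (σ : Ch X), conjSub (n : G) '' σ.1 ⊆ X ∧
      IsChain (· ≤ ·) (conjSub (n : G) '' σ.1) := by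
    intro n σ
    refine ⟨?_, ?_⟩
    · rintro _ ⟨P, hP, rfl⟩
      exact hX n n.2 P (σ.2.1 hP)
    · rintro _ ⟨P, hP, rfl⟩ _ ⟨Q, hQ, rfl⟩ _
      rcases σ.2.2.total hP hQ with h1 | h1
      · exact Or.inl (conjSub_le h1)
      · exact Or.inr (conjSub_le h1)
  letI : MulAction N (Ch X) :=
    { smul := fun n σ => ⟨conjSub (n : G) '' σ.1, hconj n σ⟩
      one_smul := fun σ => by
        apply Subtype.ext
        change conjSub (1 : G) '' σ.1 = σ.1
        have : (conjSub (1 : G)) = id := funext conjSub_one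
        rw [this, Set.image_id]
      mul_smul := fun g h σ => by
        apply Subtype.ext
        change conjSub ((g : G) * (h : G)) '' σ.1 = conjSub (g : G) '' (conjSub (h : G) '' σ.1)
        rw [← Set.image_comp]
        congr 1
        exact funext fun P => conjSub_mul (g : G) (h : G) P }
  have hsm : ∀ (n : N) (σ : Ch X), (n • σ).1 = conjSub (n : G) '' σ.1 := fun _ _ => rfl
  have h := orbit_sum (G := N) (chSetoid N X) (by
    intro σ τ
    change (∃ n ∈ N, τ.1 = conjSub n '' σ.1) ↔ _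
    constructor
    · rintro ⟨n, hn, h1⟩
      exact ⟨⟨n, hn⟩, Subtype.ext (by rw [hsm, h1])⟩
    · rintro ⟨n, h1⟩
      exact ⟨n, n.2, by rw [← h1, hsm]⟩)
    (fun σ => (-1) ^ σ.1.ncard * F σ.1) (by
      rintro σ τ ⟨n, hn, h1⟩
      change (-1) ^ σ.1.ncard * F σ.1 = (-1) ^ τ.1.ncard * F τ.1
      rw [h1, ncard_conj, hF n hn σ])
  have hst : ∀ σ : Ch X, Nat.card (MulAction.stabilizer N σ) =
      Nat.card ↥(N ⊓ chainStabilizer σ.1) := by
    intro σ
    have key : ∀ n : N, n ∈ MulAction.stabilizer N σ ↔ (n : G) ∈ chainStabilizer σ.1 := by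
      intro n
      rw [MulAction.mem_stabilizer_iff, Subtype.ext_iff, hsm, mem_chainStabilizer]
      constructor
      · intro h3 P hP
        have hgP : conjSub (n : G) P ∈ σ.1 := by
          rw [← h3]
          exact ⟨P, hP, rfl⟩
        have hcard : Nat.card (conjSub (n : G) P) = Nat.card P :=
          Nat.card_congr (Subgroup.equivMapOfInjective _ _
            (MulAut.conj (n : G)).injective).toEquiv.symm
        rcases σ.2.2.total hgP hP with h4 | h4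
        · exact Subgroup.eq_of_le_of_card_ge h4 hcard.ge
        · exact (Subgroup.eq_of_le_of_card_ge h4 hcard.le).symm
      · intro h3
        ext P
        constructor
        · rintro ⟨Q, hQ, rfl⟩
          rw [h3 Q hQ]
          exact hQ
        · intro hP
          exact ⟨P, hP, h3 P hP⟩
    exact Nat.card_congr
      { toFun := fun n => ⟨(n.1 : G), n.1.2, (key n.1).1 n.2⟩
        invFun := fun g => ⟨⟨g.1, g.2.1⟩, (key ⟨g.1, g.2.1⟩).2 g.2.2⟩
        left_inv := fun n => rfl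
        right_inv := fun g => rfl }
  have h1 : (Nat.card N : ℂ) * (altSum N X F : ℂ) =
      ∑ σ : Ch X, (Nat.card ↥(N ⊓ chainStabilizer σ.1) : ℂ) * ((-1) ^ σ.1.ncard * (F σ.1 : ℂ)) := by
    have h2 : (Nat.card N : ℤ) * altSum N X F =
        ∑ σ : Ch X, (Nat.card ↥(N ⊓ chainStabilizer σ.1) : ℤ) * ((-1) ^ σ.1.ncard * F σ.1) := by
      unfold altSum
      rw [h]
      exact Finset.sum_congr rfl fun σ _ => by rw [hst σ]
    have h3 := congrArg (Int.cast : ℤ → ℂ) h2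
    push_cast at h3
    exact h3
  have h2 : A * (Nat.card N : ℂ) * (altSum N X F : ℂ) =
      ∑ σ : Ch X, ∑ t : T, (-1) ^ σ.1.ncard *
        (if S t ⊆ (chainStabilizer σ.1 : Set G) then c t else 0) := by
    rw [mul_assoc, h1, Finset.mul_sum]
    refine Finset.sum_congr rfl fun σ _ => ?_
    rw [← Finset.mul_sum, ← hA σ]
    ring
  rw [h2, Finset.sum_comm]
  refine Finset.sum_congr rfl fun t _ => ?_
  have : Fintype (Ch (fx X (S t))) := Fintype.ofFinite _
  have h3 : (w (fx X (S t)) : ℂ) =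
      ∑ σ ∈ Finset.univ.filter (fun σ : Ch X => S t ⊆ (chainStabilizer σ.1 : Set G)),
        (-1 : ℂ) ^ σ.1.ncard := by
    unfold w
    rw [finsum_eq_sum_of_fintype]
    push_cast
    refine Finset.sum_bij' (fun σ _ => (⟨σ.1, fun P hP => (σ.2.1 hP).1, σ.2.2⟩ : Ch X))
      (fun σ hσ => (⟨σ.1, fun P hP => ⟨σ.2.1 hP, fun x hx =>
        mem_chainStabilizer.1 ((Finset.mem_filter.1 hσ).2 hx) P hP⟩, σ.2.2⟩ :
          Ch (fx X (S t)))) ?_ ?_ ?_ ?_ ?_
    · intro σ _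
      refine Finset.mem_filter.2 ⟨Finset.mem_univ _, fun x hx => ?_⟩
      exact mem_chainStabilizer.2 fun P hP => (σ.2.1 hP).2 x hx
    · intro σ _
      exact Finset.mem_univ _
    · intro σ _
      rfl
    · intro σ _
      rfl
    · intro σ _
      rfl
  rw [h3, Finset.mul_sum, Finset.sum_filter]
  refine Finset.sum_congr rfl fun σ _ => ?_
  split_ifs
  · ring
  · ring

end Pool.Agent.Y495.DP
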